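import Mathlib

set_option autoImplicit false

/-!
Base change for the Atiyah conjecture: definitions.
All Hilbert spaces are `ℓ²(ι × G)`, `ι` a finite set, `G` a group acting by left translation.
Matrices over `ℂG` act from the right regular side: `(A·x)(k,g) = ∑ i h, A k i h * x (i, g*h)`.
-/

namespace Pool.Agent.H80R2.BC

open scoped ENNReal
open Module

/-- `ℓ²(X)` -/
abbrev L2 (X : Type) : Type := lp (fun _ : X => ℂ) 2

/-- matrices over the group algebra `ℂG` (coefficient functions) -/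
abbrev GMat (κ ι G : Type) : Type := κ → ι → (G →₀ ℂ)

section
variable {ι κ G : Type} [Group G]

open Classical in
/-- the basis vector `δ_{(i,1)}` -/
noncomputable def dl (G : Type) [Group G] {ι : Type} (i : ι) : L2 (ι × G) :=
  lp.single 2 (i, (1 : G)) (1 : ℂ)

/-- von Neumann dimension (of the closure) of a left invariant subspace of `ℓ²(ι × G)` -/
noncomputable def vdim [Fintype ι] (K : Submodule ℂ (L2 (ι × G))) : ℝ :=
  ∑ i, (1 - (Metric.infDist (dl G i) (K : Set (L2 (ι × G)))) ^ 2)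

/-- `y` is the left translate of `x` by `g⁻¹` -/
def IsTr (g : G) (x y : L2 (ι × G)) : Prop := ∀ i h, y (i, h) = x (i, g * h)

/-- left invariant subspaces -/
def LInv (K : Submodule ℂ (L2 (ι × G))) : Prop := ∀ g x y, x ∈ K → IsTr g x y → y ∈ K

/-- equivariant bounded operators -/
def Equi (T : L2 (ι × G) →L[ℂ] L2 (κ × G)) : Prop := ∀ g x y, IsTr g x y → IsTr g (T x) (T y)

/-- the formula for the action of a matrix over `ℂG` -/
noncomputable def act [Fintype ι] (A : GMat κ ι G) (x : ι × G → ℂ) (k : κ) (g : G) : ℂ :=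
  ∑ i, (A k i).sum (fun h c => c * x (i, g * h))

theorem act_zero [Fintype ι] (A : GMat κ ι G) (k : κ) (g : G) : act A 0 k g = 0 := by
  simp [act]

theorem act_add [Fintype ι] (A : GMat κ ι G) (x y : ι × G → ℂ) (k : κ) (g : G) :
    act A (x + y) k g = act A x k g + act A y k g := by
  simp only [act, Pi.add_apply, Finsupp.sum, mul_add, Finset.sum_add_distrib]

theorem act_smul [Fintype ι] (A : GMat κ ι G) (c : ℂ) (x : ι × G → ℂ) (k : κ) (g : G) :
    act A (c • x) k g = c * act A x k g := by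
  simp only [act, Pi.smul_apply, Finsupp.sum, smul_eq_mul, Finset.mul_sum]
  refine Finset.sum_congr rfl fun i _ => Finset.sum_congr rfl fun h _ => ?_
  ring

/-- kernel of the action of a matrix over `ℂG` -/
noncomputable def kerA [Fintype ι] (A : GMat κ ι G) : Submodule ℂ (L2 (ι × G)) where
  carrier := {x | ∀ k g, act A x k g = 0}
  zero_mem' := by
    intro k g
    rw [lp.coeFn_zero]
    exact act_zero A k g
  add_mem' := by
    intro x y hx hy k g
    rw [lp.coeFn_add, act_add, hx k g, hy k g, add_zero]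
  smul_mem' := by
    intro c x hx k g
    rw [lp.coeFn_smul, act_smul, hx k g, mul_zero]

/-- von Neumann dimension of the kernel -/
noncomputable def dk [Fintype ι] (A : GMat κ ι G) : ℝ := vdim (kerA A)

/-- pointwise linear condition: `x` takes values in `Φ ⊆ ℂ^μ` -/
def pt {μ : Type} (Φ : Submodule ℂ (μ → ℂ)) : Submodule ℂ (L2 ((ι × μ) × G)) where
  carrier := {x | ∀ p g, (fun i => x ((p, i), g)) ∈ Φ}
  zero_mem' := fun _ _ => Φ.zero_mem
  add_mem' := fun hx hy p g => Φ.add_mem (hx p g) (hy p g)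
  smul_mem' := fun c _ hx p g => Φ.smul_mem c (hx p g)

/-- values of a subspace: the smallest `Φ` with `Z ≤ pt Φ` -/
def vals {μ : Type} (Z : Submodule ℂ (L2 ((ι × μ) × G))) : Submodule ℂ (μ → ℂ) :=
  Submodule.span ℂ {v | ∃ x ∈ Z, ∃ p g, v = fun i => x ((p, i), g)}

/-- image of a subspace under a scalar functional `f` applied to windows -/
def fimg {μ : Type} (f : (μ → ℂ) →ₗ[ℂ] ℂ) (K : Submodule ℂ (L2 ((ι × μ) × G))) :
    Submodule ℂ (L2 (ι × G)) where
  carrier := {y | ∃ x ∈ K, ∀ p g, y (p, g) = f (fun i => x ((p, i), g))}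
  zero_mem' := ⟨0, K.zero_mem, fun _ _ => (map_zero f).symm⟩
  add_mem' := by
    rintro y z ⟨a, ha, ha'⟩ ⟨b, hb, hb'⟩
    refine ⟨a + b, K.add_mem ha hb, fun p g => ?_⟩
    rw [lp.coeFn_add, Pi.add_apply, ha', hb', ← map_add]
    rfl
  smul_mem' := by
    rintro c y ⟨a, ha, ha'⟩
    refine ⟨c • a, K.smul_mem c ha, fun p g => ?_⟩
    rw [lp.coeFn_smul, Pi.smul_apply, ha', ← map_smul]
    rfl

/-- every finite subgroup has order dividing `d` -/
def TorDiv (G : Type) [Group G] (d : ℕ) : Prop := ∀ H : Subgroup G, Finite H → Nat.card H ∣ d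

/-- coefficients in a subring -/
def Coef (R : Subring ℂ) (A : GMat κ ι G) : Prop := ∀ k i h, A k i h ∈ R

/-- the Atiyah property with coefficients in `R` -/
def AtR (R : Subring ℂ) (G : Type) [Group G] : Prop :=
  ∀ d : ℕ, 0 < d → TorDiv G d → ∀ (a n : ℕ) (A : GMat (Fin a) (Fin n) G), Coef R A →
    ∃ z : ℤ, (d : ℝ) * dk A = z

/-- induced matrix for a group homomorphism -/
noncomputable def push {G' : Type} (f : G → G') (A : GMat κ ι G) : GMat κ ι G' :=
  fun k i => (A k i).mapDomain f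

/-- stacking of matrices -/
def stack {κ' : Type} (A : GMat κ ι G) (B : GMat κ' ι G) : GMat (κ ⊕ κ') ι G := Sum.elim A B

/-- the value `P0 + z P1` of a pencil -/
noncomputable def pen (P0 P1 : GMat κ ι G) (z : ℂ) : GMat κ ι G := fun k i => P0 k i + z • P1 k i

open Classical in
/-- the system `P0 x_i + P1 x_{i+1} = 0`, `i < l`, for windows `x_0,…,x_l` -/
noncomputable def Tm (P0 P1 : GMat κ ι G) (l : ℕ) : GMat (κ × Fin l) (ι × Fin (l + 1)) G :=
  fun a p => (if p.2 = a.2.castSucc then P0 a.1 p.1 else 0) +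
    (if p.2 = a.2.succ then P1 a.1 p.1 else 0)

/-- block diagonal amplification `A ⊗ I_N` -/
noncomputable def amp {N : ℕ} (A : GMat κ ι G) : GMat (κ × Fin N) (ι × Fin N) G :=
  fun a p => if p.2 = a.2 then A a.1 p.1 else 0

end

section generic
variable {ι η G G' : Type} [Group G] [Group G']

/-- The elements `u p q` are `generic` over the subgroup `inc G`: a cut at every edge. -/
def Generic (inc : G →* G') (u : ι → η → G') : Prop :=
  ∀ (p0 : ι) (q0 : η) (h0 : G'), ∃ χ : G' → Bool, (∀ r g, χ (r * inc g) = χ r) ∧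
    ∀ p q h, (χ (h * (u p q)⁻¹) ≠ χ h ↔ (p = p0 ∧ q = q0 ∧ h = h0))

open Classical in
/-- the `j` generic conditions `∑_p x_{p,i}(r u_{p,q}) = 0` -/
noncomputable def Th {μ : Type} (u : ι → η → G') : GMat (η × μ) (ι × μ) G' :=
  fun a p => if p.2 = a.2 then Finsupp.single (u p.1 a.1) 1 else 0

/-- the cut down system over the big group -/
noncomputable def Cut {κ μ : Type} (inc : G →* G') (u : ι → η → G')
    (A : GMat κ (ι × μ) G) : GMat (κ ⊕ (η × μ)) (ι × μ) G' :=
  stack (push inc A) (Th u)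

end generic

section seq

/-- shift on sequences -/
def shift : (ℕ → ℂ) →ₗ[ℂ] (ℕ → ℂ) where
  toFun ψ := fun n => ψ (n + 1)
  map_add' _ _ := rfl
  map_smul' _ _ := rfl

/-- restriction to the first `m` entries -/
def res (m : ℕ) : (ℕ → ℂ) →ₗ[ℂ] (Fin m → ℂ) where
  toFun ψ := fun i => ψ i
  map_add' _ _ := rfl
  map_smul' _ _ := rfl

/-- finite dimensional shift invariant spaces of sequences -/
structure Psi where
  sp : Submodule ℂ (ℕ → ℂ)
  fin : FiniteDimensional ℂ sp
  inv : ∀ ψ ∈ sp, shift ψ ∈ sp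

/-- the dimension -/
noncomputable def Psi.c (Ψ : Psi) : ℕ := finrank ℂ Ψ.sp

/-- `f` is an eigenfunctional of the shift on `Ψ` -/
def Eig (Ψ : Psi) (l : ℕ) (f : (Fin (l + 1) → ℂ) →ₗ[ℂ] ℂ) (z : ℂ) : Prop :=
  (∃ ψ ∈ Ψ.sp, f (res (l + 1) ψ) ≠ 0) ∧
    ∀ ψ ∈ Ψ.sp, f (res (l + 1) (shift ψ)) = z * f (res (l + 1) ψ)

/-- geometric sequence -/
def geo (z : ℂ) : ℕ → ℂ := fun n => z ^ n

variable {ι κ G : Type} [Group G] [Fintype ι]

/-- solutions of the pencil with values in `Ψ`, windows of length `l+1` -/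
noncomputable def XW (P0 P1 : GMat κ ι G) (Ψ : Psi) (l : ℕ) :
    Submodule ℂ (L2 ((ι × Fin (l + 1)) × G)) :=
  kerA (Tm P0 P1 l) ⊓ pt (Ψ.sp.map (res (l + 1)))

/-- the dimension of the solutions with values in `Ψ` -/
noncomputable def del (P0 P1 : GMat κ ι G) (Ψ : Psi) : ℝ := vdim (XW P0 P1 Ψ Ψ.c)

end seq

section product
variable {ι κ G ι' κ' G' : Type} [Group G] [Group G']

/-- external product of two systems: rows `A ⊗ 1` and `1 ⊗ A'` on `ℓ²((ι×ι')×(G×G'))` -/
noncomputable def ext (A : GMat κ ι G) (A' : GMat κ' ι' G') :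
    GMat ((κ × ι') ⊕ (ι × κ')) (ι × ι') (G × G') := by
  classical
  exact Sum.elim
    (fun a p => if a.2 = p.2 then (A a.1 p.1).mapDomain (fun g => (g, (1 : G'))) else 0)
    (fun a p => if a.1 = p.1 then (A' a.2 p.2).mapDomain (fun g => ((1 : G), g)) else 0)

/-- external product of subspaces -/
def extK (V : Submodule ℂ (L2 (ι × G))) (V' : Submodule ℂ (L2 (ι' × G'))) :
    Submodule ℂ (L2 ((ι × ι') × (G × G'))) where
  carrier := {y | (∀ (i' : ι') (g' : G'), ∃ x ∈ V, ∀ i g, x (i, g) = y ((i, i'), (g, g'))) ∧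
    (∀ (i : ι) (g : G), ∃ x ∈ V', ∀ i' g', x (i', g') = y ((i, i'), (g, g')))}
  zero_mem' := ⟨fun _ _ => ⟨0, V.zero_mem, fun _ _ => rfl⟩, fun _ _ => ⟨0, V'.zero_mem, fun _ _ => rfl⟩⟩
  add_mem' := by
    rintro y z ⟨hy1, hy2⟩ ⟨hz1, hz2⟩
    refine ⟨fun i' g' => ?_, fun i g => ?_⟩
    · obtain ⟨a, ha, ha'⟩ := hy1 i' g'
      obtain ⟨b, hb, hb'⟩ := hz1 i' g'
      refine ⟨a + b, V.add_mem ha hb, fun i g => ?_⟩
      rw [lp.coeFn_add, Pi.add_apply, lp.coeFn_add, Pi.add_apply, ha', hb']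
    · obtain ⟨a, ha, ha'⟩ := hy2 i g
      obtain ⟨b, hb, hb'⟩ := hz2 i g
      refine ⟨a + b, V'.add_mem ha hb, fun i' g' => ?_⟩
      rw [lp.coeFn_add, Pi.add_apply, lp.coeFn_add, Pi.add_apply, ha', hb']
  smul_mem' := by
    rintro c y ⟨hy1, hy2⟩
    refine ⟨fun i' g' => ?_, fun i g => ?_⟩
    · obtain ⟨a, ha, ha'⟩ := hy1 i' g'
      refine ⟨c • a, V.smul_mem c ha, fun i g => ?_⟩
      rw [lp.coeFn_smul, Pi.smul_apply, lp.coeFn_smul, Pi.smul_apply, ha']
    · obtain ⟨a, ha, ha'⟩ := hy2 i g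
      refine ⟨c • a, V'.smul_mem c ha, fun i' g' => ?_⟩
      rw [lp.coeFn_smul, Pi.smul_apply, lp.coeFn_smul, Pi.smul_apply, ha']

end product

end Pool.Agent.H80R2.BC
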