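import Pool.Agent.H13.L.S8.H80R2.BC.Defs

set_option autoImplicit false

/-! Task D: generic elements of `G * F_m`, torsion of free products. -/

namespace Pool.Agent.H80R2.BC

open scoped ENNReal
open Module

section D

/-- action of `G` -/
def D_actG (G : Type) [Group G] (m : ℕ) :
    G →* Equiv.Perm (Monoid.Coprod G (FreeGroup (Fin m)) × ZMod 2) where
  toFun g :=
    { toFun := fun r => (Monoid.Coprod.inl g * r.1, r.2)
      invFun := fun r => (Monoid.Coprod.inl g⁻¹ * r.1, r.2)
      left_inv := by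
        intro r
        ext <;> simp
      right_inv := by
        intro r
        ext <;> simp }
  map_one' := by
    ext r <;> simp
  map_mul' := by
    intro a b
    ext r <;> simp [mul_assoc]

open Classical in
/-- action of the generator `n` -/
noncomputable def D_gen (G : Type) [Group G] (m : ℕ) (n0 : Fin m)
    (x0 : Monoid.Coprod G (FreeGroup (Fin m))) (n : Fin m) :
    Equiv.Perm (Monoid.Coprod G (FreeGroup (Fin m)) × ZMod 2) where
  toFun r := (Monoid.Coprod.inr (FreeGroup.of n) * r.1,
    r.2 + if n = n0 ∧ r.1 = x0 then 1 else 0)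
  invFun r := ((Monoid.Coprod.inr (FreeGroup.of n))⁻¹ * r.1,
    r.2 - if n = n0 ∧ (Monoid.Coprod.inr (FreeGroup.of n))⁻¹ * r.1 = x0 then 1 else 0)
  left_inv := by
    intro r
    ext <;> simp
  right_inv := by
    intro r
    ext <;> simp

/-- the homomorphism -/
noncomputable def D_Psi (G : Type) [Group G] (m : ℕ) (n0 : Fin m)
    (x0 : Monoid.Coprod G (FreeGroup (Fin m))) :
    Monoid.Coprod G (FreeGroup (Fin m)) →*
      Equiv.Perm (Monoid.Coprod G (FreeGroup (Fin m)) × ZMod 2) :=
  Monoid.Coprod.lift (D_actG G m) (FreeGroup.lift (D_gen G m n0 x0))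

theorem D_Psi_inl (G : Type) [Group G] (m : ℕ) (n0 : Fin m)
    (x0 : Monoid.Coprod G (FreeGroup (Fin m))) (g : G)
    (r : Monoid.Coprod G (FreeGroup (Fin m)) × ZMod 2) :
    D_Psi G m n0 x0 (Monoid.Coprod.inl g) r = (Monoid.Coprod.inl g * r.1, r.2) := by
  unfold D_Psi
  rw [Monoid.Coprod.lift_apply_inl]
  rfl

open Classical in
theorem D_Psi_gen (G : Type) [Group G] (m : ℕ) (n0 : Fin m)
    (x0 : Monoid.Coprod G (FreeGroup (Fin m))) (n : Fin m)
    (r : Monoid.Coprod G (FreeGroup (Fin m)) × ZMod 2) :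
    D_Psi G m n0 x0 (Monoid.Coprod.inr (FreeGroup.of n)) r =
      (Monoid.Coprod.inr (FreeGroup.of n) * r.1, r.2 + if n = n0 ∧ r.1 = x0 then 1 else 0) := by
  unfold D_Psi
  rw [Monoid.Coprod.lift_apply_inr, FreeGroup.lift_apply_of]
  rfl

theorem D_Psi_fst (G : Type) [Group G] (m : ℕ) (n0 : Fin m)
    (x0 : Monoid.Coprod G (FreeGroup (Fin m))) (x : Monoid.Coprod G (FreeGroup (Fin m))) :
    ∀ r : Monoid.Coprod G (FreeGroup (Fin m)) × ZMod 2, (D_Psi G m n0 x0 x r).1 = x * r.1 := by
  induction x using Monoid.Coprod.induction_on with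
  | inl g =>
    intro r
    rw [D_Psi_inl]
  | inr w =>
    induction w using FreeGroup.induction_on with
    | C1 => 
      intro r
      simp
    | of n =>
      intro r
      rw [D_Psi_gen]
    | inv_of n ih =>
      intro r
      have h := ih ((D_Psi G m n0 x0 (Monoid.Coprod.inr (FreeGroup.of n)))⁻¹ r)
      rw [← Equiv.Perm.mul_apply, mul_inv_cancel, Equiv.Perm.one_apply] at h
      rw [map_inv, map_inv, h]
      group
    | mul a b iha ihb =>
      intro r
      rw [map_mul, map_mul, Equiv.Perm.mul_apply, iha, ihb, mul_assoc]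
  | mul a b iha ihb =>
    intro r
    rw [map_mul, Equiv.Perm.mul_apply, iha, ihb, mul_assoc]

theorem generic_coprod (G : Type) [Group G] {ι η : Type} (m : ℕ) (e : ι × η ≃ Fin m) :
    Generic (Monoid.Coprod.inl : G →* Monoid.Coprod G (FreeGroup (Fin m)))
      (fun p q => (Monoid.Coprod.inr : FreeGroup (Fin m) →* Monoid.Coprod G (FreeGroup (Fin m)))
        (FreeGroup.of (e (p, q)))) := by
  classical
  intro p0 q0 h0
  set Ψ := D_Psi G m (e (p0, q0)) h0⁻¹ with hΨ
  have key : ∀ (n : Fin m) (x : Monoid.Coprod G (FreeGroup (Fin m))),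
      (Ψ (Monoid.Coprod.inr (FreeGroup.of n) * x) (1, 0)).2 =
        (Ψ x (1, 0)).2 + if n = e (p0, q0) ∧ x = h0⁻¹ then 1 else 0 := by
    intro n x
    rw [map_mul, Equiv.Perm.mul_apply, hΨ, D_Psi_gen]
    simp only [D_Psi_fst, mul_one]
  have key2 : ∀ (g : G) (x : Monoid.Coprod G (FreeGroup (Fin m))),
      (Ψ (Monoid.Coprod.inl g * x) (1, 0)).2 = (Ψ x (1, 0)).2 := by
    intro g x
    rw [map_mul, Equiv.Perm.mul_apply, hΨ, D_Psi_inl]
  refine ⟨fun r => decide ((Ψ r⁻¹ (1, 0)).2 = 1), ?_, ?_⟩
  · intro r g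
    have : (r * Monoid.Coprod.inl g)⁻¹ = Monoid.Coprod.inl g⁻¹ * r⁻¹ := by
      rw [mul_inv_rev, map_inv]
    simp only [this, key2]
  · intro p q h
    have h1 : (h * (Monoid.Coprod.inr (FreeGroup.of (e (p, q))))⁻¹)⁻¹ =
        Monoid.Coprod.inr (FreeGroup.of (e (p, q))) * h⁻¹ := by
      rw [mul_inv_rev, inv_inv]
    simp only [h1, key]
    have h2 : (e (p, q) = e (p0, q0) ∧ h⁻¹ = h0⁻¹) ↔ (p = p0 ∧ q = q0 ∧ h = h0) := by
      rw [e.injective.eq_iff, Prod.mk_inj, inv_inj, and_assoc]
    rw [← h2]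
    have h3 : ∀ s : ZMod 2, decide (s + 1 = 1) ≠ decide (s = 1) := by decide
    by_cases hc : e (p, q) = e (p0, q0) ∧ h⁻¹ = h0⁻¹
    · rw [if_pos hc]
      exact ⟨fun _ => hc, fun _ => h3 _⟩
    · rw [if_neg hc, add_zero]
      exact ⟨fun h => absurd rfl h, fun h => absurd h hc⟩

/-- translation action on the free group -/
def D_phi (G : Type) [Group G] (m : ℕ) : G →* MulAut (FreeGroup (G × Fin m)) where
  toFun g := FreeGroup.freeGroupCongr ((Equiv.mulLeft g).prodCongr (Equiv.refl (Fin m)))
  map_one' := by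
    ext x
    simp only [MulAut.one_apply]
    induction x using FreeGroup.induction_on with
    | C1 => simp
    | of x => simp
    | inv_of x ih => rw [map_inv, ih]
    | mul a b ha hb => rw [map_mul, ha, hb]
  map_mul' := by
    intro a b
    ext x
    simp only [MulAut.mul_apply]
    induction x using FreeGroup.induction_on with
    | C1 => simp
    | of x => 
      obtain ⟨y, n⟩ := x
      simp [mul_assoc]
    | inv_of x ih => rw [map_inv, map_inv, map_inv, ih]
    | mul a b ha hb => simp only [map_mul, ha, hb]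

theorem D_phi_of (G : Type) [Group G] (m : ℕ) (g a : G) (n : Fin m) :
    D_phi G m g (FreeGroup.of (a, n)) = FreeGroup.of (g * a, n) := by
  simp [D_phi]

/-- the map to the semidirect product -/
def D_Phi (G : Type) [Group G] (m : ℕ) : Monoid.Coprod G (FreeGroup (Fin m)) →*
    FreeGroup (G × Fin m) ⋊[D_phi G m] G :=
  Monoid.Coprod.lift SemidirectProduct.inr
    (FreeGroup.lift (fun n => SemidirectProduct.inl (FreeGroup.of (1, n))))

/-- the map back -/
def D_back (G : Type) [Group G] (m : ℕ) : FreeGroup (G × Fin m) ⋊[D_phi G m] G →*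
    Monoid.Coprod G (FreeGroup (Fin m)) :=
  SemidirectProduct.lift
    (FreeGroup.lift (fun p => Monoid.Coprod.inl p.1 * Monoid.Coprod.inr (FreeGroup.of p.2) *
      (Monoid.Coprod.inl p.1)⁻¹)) Monoid.Coprod.inl (by
    intro g
    ext p
    obtain ⟨a, n⟩ := p
    simp [D_phi_of, mul_assoc, MulAut.conj_apply])

theorem D_back_Phi (G : Type) [Group G] (m : ℕ) (x : Monoid.Coprod G (FreeGroup (Fin m))) :
    D_back G m (D_Phi G m x) = x := by
  have : (D_back G m).comp (D_Phi G m) = MonoidHom.id _ := by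
    apply Monoid.Coprod.hom_ext
    · ext g
      simp [D_back, D_Phi]
    · ext n
      simp [D_back, D_Phi]
  exact DFunLike.congr_fun this x

theorem D_Phi_right (G : Type) [Group G] (m : ℕ) (x : Monoid.Coprod G (FreeGroup (Fin m))) :
    (D_Phi G m x).right = Monoid.Coprod.fst x := by
  have : SemidirectProduct.rightHom.comp (D_Phi G m) = Monoid.Coprod.fst := by
    apply Monoid.Coprod.hom_ext
    · ext g
      simp [D_Phi]
    · ext n
      simp [D_Phi]
  exact DFunLike.congr_fun this x

theorem torDiv_coprod (G : Type) [Group G] (m d : ℕ) (h : TorDiv G d) :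
    TorDiv (Monoid.Coprod G (FreeGroup (Fin m))) d := by
  intro H hH
  have hinj : Function.Injective
      ((Monoid.Coprod.fst : Monoid.Coprod G (FreeGroup (Fin m)) →* G).comp H.subtype) := by
    rw [injective_iff_map_eq_one]
    rintro ⟨x, hx⟩ hx1
    simp only [MonoidHom.coe_comp, Subgroup.coe_subtype, Function.comp_apply] at hx1
    have hfin : IsOfFinOrder x := by
      have := isOfFinOrder_of_finite (⟨x, hx⟩ : H)
      exact (Submonoid.isOfFinOrder_coe (H := H.toSubmonoid) (x := ⟨x, hx⟩)).2 this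
    have h1 : (D_Phi G m x).right = 1 := by rw [D_Phi_right, hx1]
    have h2 : IsOfFinOrder (D_Phi G m x) := MonoidHom.isOfFinOrder _ hfin
    have h3 : D_Phi G m x = SemidirectProduct.inl (D_Phi G m x).left := by
      ext
      · simp
      · simp [h1]
    have h4 : IsOfFinOrder (D_Phi G m x).left := by
      rw [h3] at h2
      exact (SemidirectProduct.inl_injective.isOfFinOrder_iff).1 h2
    have h5 : (D_Phi G m x).left = 1 := by
      by_contra hne
      exact (not_isOfFinOrder_of_isMulTorsionFree hne) h4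
    have h6 : D_Phi G m x = 1 := by
      rw [h3, h5, map_one]
    have h7 : x = 1 := by
      rw [← D_back_Phi G m x, h6, map_one]
    exact Subtype.ext h7
  rw [Nat.card_congr (MonoidHom.ofInjective hinj).toEquiv]
  exact h _ (Finite.of_surjective _ (MonoidHom.ofInjective hinj).surjective)

theorem torDiv_prod (G H : Type) [Group G] [Group H] (d e : ℕ) (h : TorDiv G d)
    (h' : TorDiv H e) : TorDiv (G × H) (d * e) := by
  intro K hK
  set f : K →* G := (MonoidHom.fst G H).comp K.subtype with hf
  have h1 : Nat.card K = Nat.card f.ker * Nat.card f.range := by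
    rw [← Subgroup.index_ker, Subgroup.card_mul_index]
  rw [h1, mul_comm]
  apply mul_dvd_mul
  · exact h _ (Finite.of_surjective _ f.rangeRestrict_surjective)
  · have hinj : Function.Injective (((MonoidHom.snd G H).comp K.subtype).comp f.ker.subtype) := by
      rw [injective_iff_map_eq_one]
      rintro ⟨⟨⟨x, y⟩, hx⟩, hx1⟩ hx2
      rw [MonoidHom.mem_ker] at hx1
      simp only [hf, MonoidHom.coe_comp, Subgroup.coe_subtype, Function.comp_apply,
        MonoidHom.coe_fst, MonoidHom.coe_snd] at hx1 hx2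
      subst hx1 hx2
      rfl
    rw [Nat.card_congr (MonoidHom.ofInjective hinj).toEquiv]
    exact h' _ (Finite.of_surjective _ (MonoidHom.ofInjective hinj).surjective)

end D

end Pool.Agent.H80R2.BC
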